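import Pool.Agent.H73.CTG.Stmts

set_option autoImplicit false

open Set Filter Topology

namespace Pool.CTG

lemma lft_ratio (n : ℕ) (y a b : E n) (m : ℝ) (hy : ‖y‖ = 1) (hm : 0 < m) (ha : m ≤ ‖a‖)
    (hb : m ≤ ‖b‖) :
    |‖(inner ℂ y a : ℂ)‖ / ‖a‖ - ‖(inner ℂ y b : ℂ)‖ / ‖b‖| ≤ 2 / m * ‖a - b‖ := by
  have ha0 : 0 < ‖a‖ := lt_of_lt_of_le hm ha
  have hb0 : 0 < ‖b‖ := lt_of_lt_of_le hm hb
  have e : ‖(inner ℂ y a : ℂ)‖ / ‖a‖ - ‖(inner ℂ y b : ℂ)‖ / ‖b‖ =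
      (‖(inner ℂ y a : ℂ)‖ - ‖(inner ℂ y b : ℂ)‖) / ‖a‖ +
        ‖(inner ℂ y b : ℂ)‖ / ‖b‖ * ((‖b‖ - ‖a‖) / ‖a‖) := by
    field_simp
    ring
  have h1 : |‖(inner ℂ y a : ℂ)‖ - ‖(inner ℂ y b : ℂ)‖| ≤ ‖a - b‖ := by
    refine (abs_norm_sub_norm_le _ _).trans ?_
    rw [← inner_sub_right]
    calc ‖(inner ℂ y (a - b) : ℂ)‖ ≤ ‖y‖ * ‖a - b‖ := norm_inner_le_norm _ _
      _ = ‖a - b‖ := by rw [hy, one_mul]
  have h2 : ‖(inner ℂ y b : ℂ)‖ / ‖b‖ ≤ 1 := by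
    rw [div_le_one hb0]
    calc ‖(inner ℂ y b : ℂ)‖ ≤ ‖y‖ * ‖b‖ := norm_inner_le_norm _ _
      _ = ‖b‖ := by rw [hy, one_mul]
  have h3 : |‖b‖ - ‖a‖| ≤ ‖a - b‖ := by
    rw [abs_sub_comm]; exact abs_norm_sub_norm_le _ _
  have h4 : |(‖(inner ℂ y a : ℂ)‖ - ‖(inner ℂ y b : ℂ)‖) / ‖a‖| ≤ ‖a - b‖ / m := by
    rw [abs_div, abs_of_pos ha0]
    exact div_le_div₀ (norm_nonneg _) h1 hm ha
  have h5 : |‖(inner ℂ y b : ℂ)‖ / ‖b‖ * ((‖b‖ - ‖a‖) / ‖a‖)| ≤ ‖a - b‖ / m := by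
    rw [abs_mul, abs_div (‖b‖ - ‖a‖), abs_of_pos ha0]
    have h6 : |‖b‖ - ‖a‖| / ‖a‖ ≤ ‖a - b‖ / m := div_le_div₀ (norm_nonneg _) h3 hm ha
    have h7 : |‖(inner ℂ y b : ℂ)‖ / ‖b‖| ≤ 1 := by
      rw [abs_of_nonneg (by positivity)]; exact h2
    calc |‖(inner ℂ y b : ℂ)‖ / ‖b‖| * (|‖b‖ - ‖a‖| / ‖a‖)
        ≤ 1 * (‖a - b‖ / m) := mul_le_mul h7 h6 (by positivity) zero_le_one
      _ = _ := one_mul _
  rw [e]
  calc _ ≤ ‖a - b‖ / m + ‖a - b‖ / m := (abs_add_le _ _).trans (add_le_add h4 h5)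
    _ = 2 / m * ‖a - b‖ := by ring

lemma lft_lip (n : ℕ) (y w : E n) (hy : ‖y‖ = 1) (hw : w ≠ 0)
    (hlt : ‖(inner ℂ y w : ℂ)‖ < ‖w‖) :
    ∃ (Λ ε : ℝ), 0 ≤ Λ ∧ 0 < ε ∧ ∀ a b : E n, ‖a - w‖ < ε → ‖b - w‖ < ε →
      |Real.arccos (‖(inner ℂ y a : ℂ)‖ / ‖a‖) - Real.arccos (‖(inner ℂ y b : ℂ)‖ / ‖b‖)| ≤
        Λ * ‖a - b‖ := by
  have hw0 : 0 < ‖w‖ := norm_pos_iff.mpr hw
  have hx1 : ‖(inner ℂ y w : ℂ)‖ / ‖w‖ < 1 := (div_lt_one hw0).mpr hlt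
  have hx0 : 0 ≤ ‖(inner ℂ y w : ℂ)‖ / ‖w‖ := by positivity
  obtain ⟨K, t, ht, hK⟩ := (Real.contDiffAt_arccos (n := 1)
    (show ‖(inner ℂ y w : ℂ)‖ / ‖w‖ ≠ -1 by linarith) hx1.ne).exists_lipschitzOnWith
  have hc : ContinuousAt (fun a : E n => ‖(inner ℂ y a : ℂ)‖ / ‖a‖) w := by
    apply ContinuousAt.div
    · fun_prop
    · fun_prop
    · exact hw0.ne'
  obtain ⟨ε, hε, hεt⟩ := Metric.eventually_nhds_iff.mp (hc.eventually_mem ht)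
  refine ⟨K * (2 / (‖w‖ / 2)), min ε (‖w‖ / 2), by positivity, lt_min hε (by linarith), ?_⟩
  intro a b ha hb
  have ha1 : dist a w < ε := by rw [dist_eq_norm]; exact lt_of_lt_of_le ha (min_le_left _ _)
  have hb1 : dist b w < ε := by rw [dist_eq_norm]; exact lt_of_lt_of_le hb (min_le_left _ _)
  have ha2 : ‖w‖ / 2 ≤ ‖a‖ := by
    have h := lt_of_lt_of_le ha (min_le_right _ _)
    have := norm_sub_norm_le w a
    rw [norm_sub_rev] at this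
    linarith
  have hb2 : ‖w‖ / 2 ≤ ‖b‖ := by
    have h := lt_of_lt_of_le hb (min_le_right _ _)
    have := norm_sub_norm_le w b
    rw [norm_sub_rev] at this
    linarith
  have h1 := hK.dist_le_mul _ (hεt ha1) _ (hεt hb1)
  rw [Real.dist_eq, Real.dist_eq] at h1
  have h2 := lft_ratio n y a b (‖w‖ / 2) hy (by linarith) ha2 hb2
  calc _ ≤ (K : ℝ) * |‖(inner ℂ y a : ℂ)‖ / ‖a‖ - ‖(inner ℂ y b : ℂ)‖ / ‖b‖| := h1
    _ ≤ (K : ℝ) * (2 / (‖w‖ / 2) * ‖a - b‖) := by gcongr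
    _ = _ := by ring

theorem LFT_thm (h1 : ITEStmt) (h2 : EXPStmt) (h3 : ANGStmt) : LFTStmt := by
  intro n f d G z₀ δ hyp hδ hU
  have hcomp : IsCompact (Metric.closedBall z₀ δ) := isCompact_closedBall z₀ δ
  obtain ⟨C, hC, hexp⟩ := h2 n f d G _ hyp hcomp hU
  obtain ⟨k, hk⟩ : ∃ k : ℕ, 8 * C / δ ≤ √((d : ℝ) ^ k) := by
    have hd : (1 : ℝ) < d := by
      have := hyp.hd
      exact_mod_cast this
    obtain ⟨k, hk⟩ := pow_unbounded_of_one_lt ((8 * C / δ) ^ 2) hd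
    exact ⟨k, Real.le_sqrt_of_sq_le hk.le⟩
  obtain ⟨hcd, -, hnz, hbij⟩ := h1 n f d G hyp k
  have main : ∀ y : E n, ‖y‖ = 1 → ∃ z ∈ Metric.closedBall z₀ δ, ∃ c : ℂ, c ≠ 0 ∧
      f^[k] z = c • y := by
    intro y hy
    set g : E n → E n := f^[k] with hg
    have hgc : Continuous g := hcd.continuous
    have hg0 : ∀ z ∈ Metric.closedBall z₀ δ, g z ≠ 0 := fun z hz => hnz z (hU hz).1
    have hcont : ContinuousOn (fun z => Real.arccos (‖(inner ℂ y (g z) : ℂ)‖ / ‖g z‖) +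
        (4 / δ) * ‖z - z₀‖) (Metric.closedBall z₀ δ) := by
      apply ContinuousOn.add
      · apply Real.continuous_arccos.comp_continuousOn
        apply ContinuousOn.div
        · fun_prop
        · fun_prop
        · intro z hz
          exact norm_ne_zero_iff.mpr (hg0 z hz)
      · fun_prop
    obtain ⟨z, hz, hmin⟩ := hcomp.exists_isMinOn ⟨z₀, Metric.mem_closedBall_self hδ.le⟩ hcont
    have hw : g z ≠ 0 := hg0 z hz
    have hw0 : 0 < ‖g z‖ := norm_pos_iff.mpr hw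
    have hzδ : ‖z - z₀‖ < δ := by
      have h4 : Real.arccos (‖(inner ℂ y (g z) : ℂ)‖ / ‖g z‖) + (4 / δ) * ‖z - z₀‖ ≤
          Real.arccos (‖(inner ℂ y (g z₀) : ℂ)‖ / ‖g z₀‖) + (4 / δ) * ‖z₀ - z₀‖ :=
        hmin (Metric.mem_closedBall_self hδ.le)
      have h5 : Real.arccos (‖(inner ℂ y (g z₀) : ℂ)‖ / ‖g z₀‖) ≤ Real.pi / 2 :=
        Real.arccos_le_pi_div_two.mpr (by positivity)
      have h6 := Real.arccos_nonneg (‖(inner ℂ y (g z) : ℂ)‖ / ‖g z‖)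
      rw [sub_self, norm_zero, mul_zero, add_zero] at h4
      have h7 : (4 / δ) * ‖z - z₀‖ ≤ 2 := by
        have := Real.pi_le_four
        linarith
      have h8 : 4 * ‖z - z₀‖ ≤ 2 * δ := by
        have e : (4 / δ) * ‖z - z₀‖ = 4 * ‖z - z₀‖ / δ := by ring
        rw [e, div_le_iff₀ hδ] at h7
        exact h7
      linarith
    by_cases hlt : ‖(inner ℂ y (g z) : ℂ)‖ < ‖g z‖
    · exfalso
      obtain ⟨ω, hω, τ₀, hτ₀, hang⟩ := h3 n y (g z) hy hw hlt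
      obtain ⟨v, hv⟩ := (hbij z (hU hz)).1.2 ω
      have hvn : ‖v‖ ≤ δ / 8 := by
        have h4 := hexp k z hz v
        rw [hv] at h4
        change ‖v‖ * ‖g z‖ * √((d : ℝ) ^ k) ≤ C * ‖ω‖ at h4
        rw [hω] at h4
        have h5 : ‖v‖ * √((d : ℝ) ^ k) ≤ C := by
          have : ‖v‖ * √((d : ℝ) ^ k) * ‖g z‖ ≤ C * ‖g z‖ := by linarith
          exact le_of_mul_le_mul_right this hw0
        have h6 : ‖v‖ * (8 * C / δ) ≤ C := (mul_le_mul_of_nonneg_left hk (norm_nonneg v)).trans h5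
        have h7 : ‖v‖ * 8 / δ ≤ 1 := by
          have : ‖v‖ * 8 / δ * C ≤ 1 * C := by
            calc ‖v‖ * 8 / δ * C = ‖v‖ * (8 * C / δ) := by ring
              _ ≤ 1 * C := by linarith
          exact le_of_mul_le_mul_right this hC
        rw [div_le_one hδ] at h7
        linarith
      obtain ⟨Λ, ε, hΛ, hε, hlip⟩ := lft_lip n y (g z) hy hw hlt
      have hfd : HasFDerivAt g (fderiv ℂ g z) z :=
        (hcd.differentiable (by norm_num) z).hasFDerivAt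
      set η : ℝ := 1 / (8 * (Λ * ‖v‖ + 1)) with hη
      have hηpos : 0 < η := by positivity
      have hηs : Λ * (η * ‖v‖) ≤ 1 / 8 := by
        rw [hη]
        have hA : 0 ≤ Λ * ‖v‖ := by positivity
        rw [show Λ * (1 / (8 * (Λ * ‖v‖ + 1)) * ‖v‖) = (Λ * ‖v‖) / (8 * (Λ * ‖v‖ + 1)) by ring]
        rw [div_le_div_iff₀ (by positivity) (by norm_num)]
        linarith
      -- the path
      have hp0 : Tendsto (fun τ : ℝ => z + (τ : ℂ) • v) (𝓝[>] 0) (𝓝 z) := by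
        have : ContinuousAt (fun τ : ℝ => z + (τ : ℂ) • v) 0 := by fun_prop
        have h := this.tendsto
        simp only [Complex.ofReal_zero, zero_smul, add_zero] at h
        exact h.mono_left nhdsWithin_le_nhds
      have hq0 : Tendsto (fun τ : ℝ => g z + (τ : ℂ) • ω) (𝓝[>] 0) (𝓝 (g z)) := by
        have : ContinuousAt (fun τ : ℝ => g z + (τ : ℂ) • ω) 0 := by fun_prop
        have h := this.tendsto
        simp only [Complex.ofReal_zero, zero_smul, add_zero] at h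
        exact h.mono_left nhdsWithin_le_nhds
      have ev1 : ∀ᶠ τ : ℝ in 𝓝[>] 0, ‖g (z + (τ : ℂ) • v) - g z -
          fderiv ℂ g z ((z + (τ : ℂ) • v) - z)‖ ≤ η * ‖(z + (τ : ℂ) • v) - z‖ :=
        hp0.eventually (hfd.isLittleO.def hηpos)
      have ev2 : ∀ᶠ τ : ℝ in 𝓝[>] 0, ‖g (z + (τ : ℂ) • v) - g z‖ < ε := by
        have h4 : Tendsto (fun τ : ℝ => g (z + (τ : ℂ) • v)) (𝓝[>] 0) (𝓝 (g z)) :=
          (hgc.tendsto z).comp hp0
        have := h4.eventually (Metric.ball_mem_nhds (g z) hε)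
        filter_upwards [this] with τ hτ
        rw [← dist_eq_norm]; exact hτ
      have ev3 : ∀ᶠ τ : ℝ in 𝓝[>] 0, ‖g z + (τ : ℂ) • ω - g z‖ < ε := by
        have := hq0.eventually (Metric.ball_mem_nhds (g z) hε)
        filter_upwards [this] with τ hτ
        rw [← dist_eq_norm]; exact hτ
      have ev4 : ∀ᶠ τ : ℝ in 𝓝[>] 0, z + (τ : ℂ) • v ∈ Metric.closedBall z₀ δ := by
        have hz' : z ∈ Metric.ball z₀ δ := by rw [Metric.mem_ball, dist_eq_norm]; exact hzδ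
        have := hp0.eventually (Metric.isOpen_ball.mem_nhds hz')
        filter_upwards [this] with τ hτ
        exact Metric.ball_subset_closedBall hτ
      have ev5 : ∀ᶠ τ : ℝ in 𝓝[>] 0, |Real.arctan τ - τ| ≤ 1 / 8 * |τ| := by
        have h4 := (Real.hasDerivAt_arctan 0).isLittleO.def (show (0 : ℝ) < 1 / 8 by norm_num)
        have h5 := h4.filter_mono (nhdsWithin_le_nhds (s := Ioi (0 : ℝ)))
        filter_upwards [h5] with τ hτ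
        simpa [Real.norm_eq_abs] using hτ
      have ev6 : ∀ᶠ τ : ℝ in 𝓝[>] 0, τ ∈ Ioo 0 τ₀ := Ioo_mem_nhdsGT hτ₀
      obtain ⟨τ, e1, e2, e3, e4, e5, e6⟩ :=
        (ev1.and (ev2.and (ev3.and (ev4.and (ev5.and ev6))))).exists
      have hτ : 0 < τ := e6.1
      have nτ : ‖(τ : ℂ)‖ = τ := by rw [Complex.norm_real, Real.norm_of_nonneg hτ.le]
      rw [add_sub_cancel_left, map_smul, hv, norm_smul, nτ] at e1
      have h4 : ‖g (z + (τ : ℂ) • v) - (g z + (τ : ℂ) • ω)‖ ≤ η * (τ * ‖v‖) := by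
        rw [← sub_sub]; exact e1
      have h5 := hlip _ _ e2 e3
      rw [hang τ hτ e6.2] at h5
      have h6 : Λ * ‖g (z + (τ : ℂ) • v) - (g z + (τ : ℂ) • ω)‖ ≤ τ / 8 := by
        calc _ ≤ Λ * (η * (τ * ‖v‖)) := mul_le_mul_of_nonneg_left h4 hΛ
          _ = Λ * (η * ‖v‖) * τ := by ring
          _ ≤ 1 / 8 * τ := mul_le_mul_of_nonneg_right hηs hτ.le
          _ = τ / 8 := by ring
      have h7 := (abs_le.mp (h5.trans h6)).2
      have h8 := (abs_le.mp e5).1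
      rw [abs_of_pos hτ] at h8
      have h9 : Real.arccos (‖(inner ℂ y (g z) : ℂ)‖ / ‖g z‖) + (4 / δ) * ‖z - z₀‖ ≤
          Real.arccos (‖(inner ℂ y (g (z + (τ : ℂ) • v)) : ℂ)‖ / ‖g (z + (τ : ℂ) • v)‖) +
            (4 / δ) * ‖z + (τ : ℂ) • v - z₀‖ := hmin e4
      have h10 : ‖z + (τ : ℂ) • v - z₀‖ ≤ ‖z - z₀‖ + τ * (δ / 8) := by
        have e : z + (τ : ℂ) • v - z₀ = (z - z₀) + (τ : ℂ) • v := by abel
        rw [e]
        calc _ ≤ ‖z - z₀‖ + ‖(τ : ℂ) • v‖ := norm_add_le _ _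
          _ = ‖z - z₀‖ + τ * ‖v‖ := by rw [norm_smul, nτ]
          _ ≤ _ := by gcongr
      have h11 : (4 / δ) * ‖z + (τ : ℂ) • v - z₀‖ ≤ (4 / δ) * ‖z - z₀‖ + τ / 2 := by
        calc _ ≤ (4 / δ) * (‖z - z₀‖ + τ * (δ / 8)) := by gcongr
          _ = (4 / δ) * ‖z - z₀‖ + τ / 2 := by field_simp; ring
      linarith
    · have heq : ‖(inner ℂ y (g z) : ℂ)‖ = ‖y‖ * ‖g z‖ := by
        rw [hy, one_mul]
        refine le_antisymm ?_ (not_lt.mp hlt)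
        calc ‖(inner ℂ y (g z) : ℂ)‖ ≤ ‖y‖ * ‖g z‖ := norm_inner_le_norm _ _
          _ = ‖g z‖ := by rw [hy, one_mul]
      have hy0 : y ≠ 0 := by
        intro h0; rw [h0, norm_zero] at hy; exact zero_ne_one hy
      obtain ⟨r, hr, hr'⟩ := (norm_inner_eq_norm_iff hy0 hw).mp heq
      exact ⟨z, hz, r, hr, hr'⟩
  refine ⟨k, fun y hy => ?_⟩
  have hyn : 0 < ‖y‖ := norm_pos_iff.mpr hy
  obtain ⟨z, hz, c, hc, hcz⟩ := main (((‖y‖⁻¹ : ℝ) : ℂ) • y) (by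
    rw [norm_smul, Complex.norm_real, Real.norm_of_nonneg (by positivity), inv_mul_cancel₀ hyn.ne'])
  refine ⟨z, hz, c * ((‖y‖⁻¹ : ℝ) : ℂ), mul_ne_zero hc ?_, ?_⟩
  · exact_mod_cast (inv_pos.mpr hyn).ne'
  · rw [hcz, smul_smul]

end Pool.CTG
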